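import Pool.Agent.H413.RV.Cls
import Pool.Agent.H413.RV.Sch3
import Pool.Graph.R_seed8.W418.Gen4

/-!
MP_602153_ag: projective flat models over `ℤ` of projective varieties over `ℚ`, of all dimensions,
with the given generic fibre, which are regular at the centres of any finite number of independent
valuations (several over the same prime number, with defect) of the residue fields of regular
points of the generic fibre.

Let `X` be an integral projective scheme over `ℚ` (for example a smooth projective variety), let
`x i` be finitely many different points of `X`, closed or not, at which `X` is regular, and for each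
`i` let `W i j` be finitely many valuation rings of the residue field of `x i` (for example of the
function field of `X` if `x i` is the generic point), each of them over some prime number
`p i j` such that `(W i j)[1 / p i j]` is the residue field. The prime numbers need not be
different. Suppose that for each `i` the `W i j` are pairwise independent, that is, two of them
have no common overring except the field (if they have rank one then this means that they are
different; if they have different residue characteristics then it always holds). Suppose that
the `W i j` belong to the class `Admissible ℤ`, the smallest class of valuation rings over `ℤ` which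
contains

* the trivial, discrete and divergent valuation rings, the valuation rings which are log
  uniformizable on all `ℤ`-algebras of finite type with the given fraction field (by Cossart and
  Piltant all valuation rings if these algebras have dimension at most `3`), and the nearly
  Abhyankar valuation rings of fields of positive characteristic: those of rank one which miss
  equality in the Abhyankar inequality by at most one, with arbitrary defect;

and which is closed under composition, under towers without defect, and under henselian descent.
(For example, `W i j` can be the composite of a discrete valuation ring with residue characteristic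
`p` and of a valuation ring of its residue field, all of whose components of rank one have
Abhyankar deficiency at most one, with arbitrary defect.) Then `X` has an integral projective flat
model over `ℤ` which is regular at the centres of all `W i j`.

The centre of a valuation ring `V` of the function field of `X` over `p` is the centre of the
valuation ring `W` which is induced on the residue field of the centre `x` of `V[1 / p]` on `X`.
So the local form of the question has a positive answer for finite sets of such valuation rings
`V`.

The proof: the centres of independent valuations are separated by blowings-up with centres in the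
fibres of the model over prime numbers. Then the model is improved at the centres of the `W i j`, one
after the other, by such blowings-up which are isomorphisms at the centres of the others: these
blowings-up are first defined near the centre of `W i j`, where a power of a form which vanishes at
the centre of the rank one coarsening of `W i j` and not at the other centres is divisible by a
large power of `p i j`, so that it can be added to the ideal.

Earlier results (`RegularAlongComposites`, `ModelsAlongTowers`, `ModelsAtValuations`) have at most
one valuation over each prime number, and no defect.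
-/

set_option autoImplicit false

open AlgebraicGeometry CategoryTheory CategoryTheory.Limits

namespace Pool.Agent.Results.MP_602153_ag.IndependentValuations

open Pool.Agent.H413.RV (Admissible main3)

/-- The valuation ring `W` of `κ` lies over the prime number `p`, and `W[1 / p] = κ`. -/
def LiesOver {κ : Type} [Field κ] (W : ValuationSubring κ) (p : ℕ) : Prop :=
  p.Prime ∧ W.valuation (p : κ) < 1 ∧ ∀ z : κ, ∃ n : ℕ, (p : κ) ^ n * z ∈ W

/-- The valuation rings `W` and `W'` of `κ` are independent: `κ` is the only valuation ring which
contains both of them. -/
def AreIndependent {κ : Type} [Field κ] (W W' : ValuationSubring κ) : Prop :=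
  ∀ U : ValuationSubring κ, W ≤ U → W' ≤ U → U = ⊤

/-- The model `Y` of `X`, with the morphism `m` from the generic fibre `X`, is regular at the centre
of the valuation ring `W` of the residue field of the point `x` of `X`: the morphism from the
spectrum of the residue field extends to the spectrum of `W`, and `Y` is regular at the image of the
closed point. -/
def IsRegularAtCentre {X Y : Scheme.{0}} (m : X ⟶ Y) (x : X)
    (W : ValuationSubring (X.residueField x)) : Prop :=
  ∃ ζ : Spec (CommRingCat.of W) ⟶ Y,
    Spec.map (CommRingCat.ofHom W.subtype) ≫ ζ = X.fromSpecResidueField x ≫ m ∧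
    IsRegularLocalRing (Y.presheaf.stalk (ζ (IsLocalRing.closedPoint W : PrimeSpectrum W)))

/-- Let `X` be an integral projective scheme over `ℚ`, let `x i` be finitely many different points
of `X` at which `X` is regular, and for each `i` let `W i j` be finitely many pairwise independent
valuation rings of the residue field of `x i` in the class `Admissible ℤ`: they are obtained from
trivial, discrete, divergent, log uniformizable or nearly Abhyankar valuation rings (the last ones
with arbitrary defect) by composition, towers without defect and henselian descent. Suppose that
`W i j` lies over the prime number `p i j` and that `(W i j)[1 / p i j]` is the residue field; the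
`p i j` need not be different. Then `X` has an integral projective flat model `Y` over `ℤ` which is
regular at the centres of all `W i j`. -/
theorem result (X : Scheme.{0}) [IsIntegral X]
    (hX : ∃ (A : Type) (_ : CommRing A) (_ : Algebra ℚ A) (𝒜 : ℕ → Submodule ℚ A)
      (_ : GradedAlgebra 𝒜),
      (∀ a ∈ 𝒜 0, ∃ q : ℚ, algebraMap ℚ A q = a) ∧
      (∃ s : Finset A, (∀ a ∈ s, a ∈ 𝒜 1) ∧ Algebra.adjoin ℚ (s : Set A) = ⊤) ∧
      Nonempty (X ≅ Proj 𝒜))
    (ι : Type) [Finite ι] (x : ι → X) (hx : Function.Injective x)
    (hreg : ∀ i, IsRegularLocalRing (X.presheaf.stalk (x i)))
    (J : ι → Type) [∀ i, Finite (J i)] (W : ∀ i, J i → ValuationSubring (X.residueField (x i)))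
    (p : ∀ i, J i → ℕ) (hW : ∀ i j, LiesOver (W i j) (p i j))
    (hind : ∀ i j j', j ≠ j' → AreIndependent (W i j) (W i j'))
    (hC : ∀ i j, Admissible ℤ (Int.castRingHom (X.residueField (x i))) (W i j)) :
    ∃ (Y : Scheme.{0})
      (e : pullback (specZIsTerminal.from Y)
        (specZIsTerminal.from (Spec (CommRingCat.of ℚ))) ≅ X),
      IsIntegral Y ∧
      IsLocallyNoetherian Y ∧
      (∃ (A : Type) (_ : CommRing A) (𝒜 : ℕ → Submodule ℤ A) (_ : GradedAlgebra 𝒜),
        (∀ a ∈ 𝒜 0, ∃ n : ℤ, (n : A) = a) ∧
        (∃ s : Finset A, (∀ a ∈ s, a ∈ 𝒜 1) ∧ Algebra.adjoin ℤ (s : Set A) = ⊤) ∧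
        Nonempty (Y ≅ Proj 𝒜)) ∧
      Flat (specZIsTerminal.from Y) ∧
      ∀ i j, IsRegularAtCentre (e.inv ≫ pullback.fst _ _) (x i) (W i j) := by
  classical
  obtain ⟨A, _, _, 𝒜, _, h0, ⟨s, hs, hgen⟩, ⟨i⟩⟩ := hX
  let f : X ⟶ Spec (CommRingCat.of ℚ) :=
    i.hom ≫ Proj.toSpecZero 𝒜 ≫ Spec.map (CommRingCat.ofHom (algebraMap ℚ (𝒜 0)))
  choose φ hφ using fun t : ι => Spec.map_surjective (X.fromSpecResidueField (x t) ≫ f)
  let σ : ∀ t, ℚ →+* X.residueField (x t) := fun t => (φ t).hom
  have hσ : ∀ t, X.fromSpecResidueField (x t) ≫ f = Spec.map (CommRingCat.ofHom (σ t)) :=
    fun t => (hφ t).symm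
  have hσZ : ∀ t, (σ t).comp (algebraMap ℤ ℚ) = Int.castRingHom (X.residueField (x t)) :=
    fun t => RingHom.ext_int _ _
  have hσp : ∀ t (n : ℕ), σ t (algebraMap ℤ ℚ (n : ℤ)) = (n : X.residueField (x t)) := by
    intro t n
    rw [map_natCast, map_natCast]
  have hHJ : Pool.Agent.TH188.QS.HJ ℤ := Pool.Agent.TH188.QS.hj_dedekind
  obtain ⟨F, _, _, iZ, _, M, g, hg, hg0, e, hM, he, hall⟩ := main3 (O := ℤ) f 𝒜 h0 s hs hgen i rfl
    x hx hreg J W σ hσ (fun t j => (p t j : ℤ)) (fun t j => by exact_mod_cast (hW t j).1.ne_zero)
    (fun t j o => by
      have h1 : σ t (algebraMap ℤ ℚ o) = (o : X.residueField (x t)) := by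
        rw [eq_intCast (algebraMap ℤ ℚ) o, map_intCast]
      rw [h1]
      exact intCast_mem (W t j) o)
    (fun t j z => by
      obtain ⟨n, hn⟩ := (hW t j).2.2 z
      exact ⟨n, by rw [hσp]; exact hn⟩)
    (fun t j h => by
      rw [hσp, ← ValuationSubring.valuation_le_one_iff, map_inv₀] at h
      have h1 := (hW t j).2.1
      have h2 : (W t j).valuation (p t j : X.residueField (x t)) ≠ 0 := by
        rw [Valuation.ne_zero_iff, ← hσp]
        refine (map_ne_zero _).2 ?_
        rw [map_natCast]
        exact Nat.cast_ne_zero.2 (hW t j).1.ne_zero
      exact absurd h (not_le.2 ((one_lt_inv₀ (zero_lt_iff.2 h2)).2 h1)))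
    hind
    (fun t j => by
      rw [hσZ]
      exact (hC t j).allGP hHJ)
  obtain rfl : iZ = Ring.toIntAlgebra F := Subsingleton.elim _ _
  have hF : CharZero F := charZero_of_injective_ringHom (algebraMap ℚ F).injective
  have key : ∀ (q : Pool.Agent.H968R2.Quad.model M ⟶ Spec (CommRingCat.of ℤ))
      (r : Spec (CommRingCat.of ℚ) ⟶ Spec (CommRingCat.of ℤ)),
      ∃ (e : pullback q r ≅ X), ∀ t j, IsRegularAtCentre (e.inv ≫ pullback.fst _ _) (x t)
        (W t j) := by
    intro q r
    obtain rfl : q = Pool.Agent.H968R2.Quad.modelMap M := specZIsTerminal.hom_ext _ _
    obtain rfl : r = Spec.map (CommRingCat.ofHom (algebraMap ℤ ℚ)) := specZIsTerminal.hom_ext _ _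
    exact ⟨e, fun t j => hall t j⟩
  obtain ⟨e', h1⟩ := key (specZIsTerminal.from _) (specZIsTerminal.from _)
  exact ⟨Pool.Agent.H968R2.Quad.model M, e',
    Pool.Agent.H968R2.Quad.model_integral M g hg hg0, Pool.Agent.W418.model_noeth M hM,
    Pool.Agent.W418.model_projective M hM, Pool.Agent.W418.model_flat M, h1⟩

end Pool.Agent.Results.MP_602153_ag.IndependentValuations
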