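import Pool.Agent.H413.BR.Sch5
import Pool.Agent.H413.XT.N5

/-!
MP_602153_ag: regular flat models over the integers to which all points extend, in all dimensions: the
regular models exist up to quasi-compactness.

Let `X` be an integral projective scheme over `ℚ` with regular local rings (for example a smooth
projective variety over `ℚ`, or over a number field). There is a regular integral scheme `Y`,
separated, flat and locally of finite type over `ℤ`, with generic fibre `X`, such that:

* for every discrete valuation ring `R` of characteristic zero (of any residue characteristic, any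
  ramification, any residue field) with field of fractions `K`, every point of `X` with values in `K`
  extends to exactly one point of `Y` with values in `R`: `Y(R) = X(K)`;
* `Y` is the union of an increasing sequence of open subschemes `V 0 ⊆ V 1 ⊆ …`, where `V d` is the
  set of all regular points of an integral proper flat model of `X` over `ℤ`, and all points of `X`
  over fields of fractions of discrete valuation rings `R` of absolute ramification at most `d`
  extend to points of `V d` with values in `R`.

So `Y` is a regular proper flat model of `X` if it is quasi-compact: everything except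
quasi-compactness is proved. Weak Neron models treat the discrete valuation rings `R` of
ramification one over a fixed one; here all ramified extensions are treated at once.

`Y` is the union of the regular loci of a sequence of blowings up of a projective model.
-/

set_option autoImplicit false

open AlgebraicGeometry CategoryTheory CategoryTheory.Limits

namespace Pool.Agent.Results.MP_602153_ag.ModelsUpToQuasiCompactness

/-- `X` with the morphism `f` to `Spec ℚ` is projective over `ℚ`: it is `Proj` of a graded
`ℚ`-algebra with degree zero part `ℚ`, generated by finitely many elements of degree one. -/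
def IsProjectiveOver {X : Scheme.{0}} (f : X ⟶ Spec (CommRingCat.of ℚ)) : Prop :=
  ∃ (A : Type) (_ : CommRing A) (_ : Algebra ℚ A) (𝒜 : ℕ → Submodule ℚ A) (_ : GradedAlgebra 𝒜),
    (∀ a ∈ 𝒜 0, ∃ q : ℚ, algebraMap ℚ A q = a) ∧
    (∃ s : Finset A, (∀ a ∈ s, a ∈ 𝒜 1) ∧ Algebra.adjoin ℚ (s : Set A) = ⊤) ∧
    ∃ i : X ≅ Proj 𝒜,
      i.hom ≫ Proj.toSpecZero 𝒜 ≫ Spec.map (CommRingCat.ofHom (algebraMap ℚ (𝒜 0))) = f

/-- The local ring of the scheme `X` at the point `x` is regular. -/
def IsRegularAt (X : Scheme.{0}) (x : X) : Prop := IsRegularLocalRing (X.presheaf.stalk x)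

/-- `Y` with `g : Y → Spec ℤ` and `m : X → Y` is an integral flat model of the scheme `X` over `ℚ`:
`X` is the generic fibre of `Y`. -/
def IsFlatModel {X Y : Scheme.{0}} (f : X ⟶ Spec (CommRingCat.of ℚ))
    (g : Y ⟶ Spec (CommRingCat.of ℤ)) (m : X ⟶ Y) : Prop :=
  IsIntegral Y ∧ Flat g ∧ IsPullback m f g (Spec.map (CommRingCat.ofHom (algebraMap ℤ ℚ)))

/-- The morphism from the spectrum of the field of fractions of `R` to the spectrum of `R`. -/
noncomputable def genericPt (R : Type) [CommRing R] [IsDomain R] :
    Spec (CommRingCat.of (FractionRing R)) ⟶ Spec (CommRingCat.of R) :=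
  Spec.map (CommRingCat.ofHom (algebraMap R (FractionRing R)))

/-- The absolute ramification of the local ring `R` is at most `d`: no prime number is in the power
`d + 1` of the maximal ideal. -/
def HasRamificationAtMost (R : Type) [CommRing R] [IsLocalRing R] (d : ℕ) : Prop :=
  ∀ p : ℕ, p.Prime → (p : R) ∉ IsLocalRing.maximalIdeal R ^ (d + 1)

/-- The open subscheme `V` of `Y` is, over `Spec ℤ`, the set of all regular points of an integral
proper flat model `Z` of `X`. -/
def IsRegularLocusOfProperModel {X Y : Scheme.{0}} (f : X ⟶ Spec (CommRingCat.of ℚ))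
    (g : Y ⟶ Spec (CommRingCat.of ℤ)) (V : Y.Opens) : Prop :=
  ∃ (Z : Scheme.{0}) (h : Z ⟶ Spec (CommRingCat.of ℤ)) (m : X ⟶ Z) (j : V.toScheme ⟶ Z),
    IsFlatModel f h m ∧ IsProper h ∧ IsOpenImmersion j ∧
    (∀ z, z ∈ Set.range j ↔ IsRegularAt Z z) ∧ j ≫ h = V.ι ≫ g

/-- Let `X` be an integral projective scheme over `ℚ` with regular local rings. There is a regular
integral scheme `Y`, separated, flat and locally of finite type over `ℤ`, with generic fibre `X`,
such that for every discrete valuation ring `R` of characteristic zero every point of `X` with values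
in the field of fractions of `R` extends to exactly one point of `Y` with values in `R`. Moreover,
`Y` is the union of increasing open subschemes `V d`, the sets of all regular points of integral proper
flat models of `X`, such that all points over discrete valuation rings of absolute ramification at
most `d` extend to `V d`. -/
theorem result (X : Scheme.{0}) [IsIntegral X] (f : X ⟶ Spec (CommRingCat.of ℚ))
    (hX : IsProjectiveOver f) (hreg : ∀ x, IsRegularAt X x) :
    ∃ (Y : Scheme.{0}) (g : Y ⟶ Spec (CommRingCat.of ℤ)) (m : X ⟶ Y), IsFlatModel f g m ∧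
      (∀ y, IsRegularAt Y y) ∧ IsSeparated g ∧ LocallyOfFiniteType g ∧
      (∀ (R : Type) [CommRing R] [IsDomain R] [IsDiscreteValuationRing R] [CharZero R]
        (ψ : Spec (CommRingCat.of (FractionRing R)) ⟶ X),
        ∃! ψ' : Spec (CommRingCat.of R) ⟶ Y, genericPt R ≫ ψ' = ψ ≫ m) ∧
      ∃ V : ℕ → Y.Opens, Monotone V ∧ (∀ y, ∃ d, y ∈ V d) ∧
        (∀ d, IsRegularLocusOfProperModel f g (V d)) ∧
        ∀ (d : ℕ) (R : Type) [CommRing R] [IsDomain R] [IsDiscreteValuationRing R],
          HasRamificationAtMost R d → ∀ ψ : Spec (CommRingCat.of (FractionRing R)) ⟶ X,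
          ∃ ψ' : Spec (CommRingCat.of R) ⟶ Y, genericPt R ≫ ψ' = ψ ≫ m ∧
            Set.range ψ' ⊆ (V d : Set Y) := by
  classical
  obtain ⟨A, _, _, 𝒜, _, h0, ⟨s, hs, hgen⟩, i, hif⟩ := hX
  obtain ⟨F, _, _, iO, hsc, M, g, hg, hg0, e, hM, he, -⟩ :=
    Pool.Agent.H413.SC5.main5 (O := ℤ) (K := ℚ) (fun o => isIntegral_algebraMap (x := o)) f 𝒜 h0 s
      hs hgen i hif (ι := Empty) (fun t => t.elim) (fun t => t.elim) hreg 0 (fun _ => Empty)
      (fun t => t.elim) (fun t => t.elim) (fun t => t.elim) (fun t => t.elim) (fun t => t.elim)
      (fun t => t.elim) (fun t => t.elim) (fun t => t.elim) (fun t => t.elim) (fun t => t.elim)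
  have hF : CharZero F := algebraRat.charZero F
  obtain rfl : iO = Ring.toIntAlgebra F := Subsingleton.elim _ _
  have hpb : IsPullback (e.inv ≫ pullback.fst _ _) f (Pool.Agent.H968R2.Quad.modelMap M)
      Pool.Agent.H413.XT.QZ := by
    refine IsPullback.of_iso_pullback ⟨?_⟩ e.symm rfl ?_
    · have h1 := pullback.condition (f := Pool.Agent.H968R2.Quad.modelMap M)
        (g := Spec.map (CommRingCat.ofHom (algebraMap ℤ ℚ)))
      rw [Category.assoc, h1, ← he]
      simp [Pool.Agent.H413.XT.QZ]
    · change e.inv ≫ pullback.snd _ _ = f
      rw [← he]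
      simp
  exact Pool.Agent.H413.XT.h413_neron_final f hM hg hg0 _ hpb hreg

end Pool.Agent.Results.MP_602153_ag.ModelsUpToQuasiCompactness
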